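import Mathlib
import Pool.Agent.H58P.Ht

set_option autoImplicit false
set_option linter.unusedVariables false

/-!
# Global definitions

`Qb = AlgebraicClosure ℚ`, `ht` is the absolute logarithmic Weil height on `Qb`.
-/

namespace Pool.Agent.W237.RK

open Polynomial
open Pool.Agent.H58P (Qb ht)

/-- subfields of `Qb` -/
abbrev GF : Type := IntermediateField ℚ Qb

/-- automorphisms of `Qb` -/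
abbrev Aut : Type := Qb ≃ₐ[ℚ] Qb

/-- `σ` fixes every element of `F` -/
def Fix (F : GF) (σ : Aut) : Prop := ∀ x ∈ F, σ x = x

/-- `σ` and `σ'` agree on `E` -/
def AgreeOn (E : GF) (σ σ' : Aut) : Prop := ∀ x ∈ E, σ x = σ' x

/-- `x` is a root of unity -/
def Tor (x : Qb) : Prop := ∃ n : ℕ, 0 < n ∧ x ^ n = 1

/-- `K(μ_N, Γ^{1/R})` -/
noncomputable def lev (K : GF) (Γ : Subgroup Qbˣ) (N R : ℕ) : GF :=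
  K ⊔ IntermediateField.adjoin ℚ ({x | x ^ N = 1} ∪ {y | ∃ g ∈ Γ, y ^ R = (g : Qb)})

/-- `K(μ_∞, Γ^{1/R})` -/
noncomputable def levInf (K : GF) (Γ : Subgroup Qbˣ) (R : ℕ) : GF :=
  K ⊔ IntermediateField.adjoin ℚ ({x | Tor x} ∪ {y | ∃ g ∈ Γ, y ^ R = (g : Qb)})

/-- `K(μ_∞)` -/
noncomputable def kinf (K : GF) : GF := K ⊔ IntermediateField.adjoin ℚ {x | Tor x}

/-- `n` is a product of primes in `P` -/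
def Smooth (P : Finset ℕ) (n : ℕ) : Prop := 0 < n ∧ ∀ q : ℕ, q.Prime → q ∣ n → q ∈ P

/-- `K(μ_∞, Γ^{1/n} : n a product of primes in P)` -/
noncomputable def fullField (K : GF) (Γ : Subgroup Qbˣ) (P : Finset ℕ) : GF :=
  K ⊔ IntermediateField.adjoin ℚ
    ({x | Tor x} ∪ {y | ∃ n : ℕ, Smooth P n ∧ ∃ g ∈ Γ, y ^ n = (g : Qb)})

/-- the conjugates of `β` over `F` -/
def orb (F : GF) (β : Qb) : Set Qb := {x | ∃ σ : Aut, Fix F σ ∧ σ β = x}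

/-- `E` is stable under the automorphisms over `K` -/
def NormalOver (K E : GF) : Prop := ∀ σ : Aut, Fix K σ → ∀ x ∈ E, σ x ∈ E

/-- the multiplicative gap: `σ x / x` is uniformly close to `1` on `E` -/
def Gap (p : ℕ) [Fact p.Prime] (φ : Qb →+* PadicAlgCl p) (E : GF) (σ : Aut) (B : ℕ) : Prop :=
  ∀ x ∈ E, x ≠ 0 → ‖φ (σ x / x - 1)‖ ^ B ≤ (p : ℝ)⁻¹

/-- every conjugate of `β` over `F` is a conjugate over `Finf` -/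
def Rigid (Finf F : GF) (β : Qb) : Prop :=
  ∀ κ : Aut, Fix F κ → ∃ ρ : Aut, Fix Finf ρ ∧ κ β = ρ β

/-- the only conjugate of `β` over `Finf` of the form `ζ β` with `ζ` a root of unity is `β` -/
def TorRigid (Finf : GF) (β : Qb) : Prop :=
  ∀ ρ : Aut, Fix Finf ρ → Tor (ρ β / β) → ρ β = β

/-- a positive power of `β` is in `Γ` -/
def DivG (Γ : Subgroup Qbˣ) (β : Qb) : Prop := ∃ n : ℕ, 0 < n ∧ ∃ g ∈ Γ, β ^ n = (g : Qb)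

/-! ## Statements -/

/-- restriction of automorphisms from the local field -/
def S_REST : Prop := ∀ (p : ℕ) [Fact p.Prime] (φ : Qb →+* PadicAlgCl p)
  (s : PadicAlgCl p ≃ₐ[ℚ_[p]] PadicAlgCl p), ∃ σ : Aut, ∀ x, φ (σ x) = s (φ x)

/-- continuity of the roots -/
def S_ROOTS : Prop := ∀ (p : ℕ) [Fact p.Prime] (d : ℕ) (f g : (PadicAlgCl p)[X]) (δ ε : ℝ),
  f.Monic → g.Monic → f.natDegree = d → g.natDegree = d → 0 < δ → δ ≤ 1 → 0 ≤ ε → ε < δ ^ d →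
  (∀ l, ‖f.coeff l - g.coeff l‖ ≤ ε * ‖f.coeff l‖) →
  ∀ a, a ≠ 0 → f.eval a = 0 → ∃ b, g.eval b = 0 ∧ ‖b / a - 1‖ < δ

/-- powers of elements close to `1`, and a projective version -/
def S_POW : Prop := ∀ (p : ℕ) [Fact p.Prime] (B : ℕ), ∃ C : ℕ, ∀ (k : ℕ),
  (∀ y : PadicAlgCl p, ‖y - 1‖ ^ B ≤ (p : ℝ)⁻¹ → ‖y ^ (p ^ k) - 1‖ * (p : ℝ) ^ k ≤ (p : ℝ) ^ C) ∧
  (∀ x y : PadicAlgCl p, ‖x - y‖ ^ B ≤ (p : ℝ)⁻¹ * (max 1 ‖x‖ * max 1 ‖y‖) ^ B →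
    ‖x ^ (p ^ k) - y ^ (p ^ k)‖ * (p : ℝ) ^ k ≤
      (p : ℝ) ^ C * (max 1 ‖x‖ * max 1 ‖y‖) ^ (p ^ k))

/-- transitivity of the automorphisms on the places above `p` of a finite normal extension -/
def S_CONJ : Prop := ∀ (p : ℕ) [Fact p.Prime] (φ : Qb →+* PadicAlgCl p) (M : GF),
  FiniteDimensional ℚ M → (∀ σ : Aut, ∀ x ∈ M, σ x ∈ M) →
  ∀ V : ValuationSubring Qb, V.valuation (p : Qb) < 1 →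
    ∃ τ : Aut, ∀ x ∈ M, (x ∈ V ↔ ‖φ (τ x)‖ ≤ 1)

/-- the height inequality -/
def S_HT : Prop := ∀ (p : ℕ) [Fact p.Prime] (φ : Qb →+* PadicAlgCl p) (M : GF),
  FiniteDimensional ℚ M → (∀ σ : Aut, ∀ x ∈ M, σ x ∈ M) →
  ∀ (d : ℕ) (u v : Fin d → M), (∀ s, u s ≠ v s) →
  ∀ (T : Finset (M ≃ₐ[ℚ] M)) (δ : ℝ), 0 < δ → δ ≤ 1 →
    (∀ τ ∈ T, ∏ s, ‖φ ((τ (u s) : M) - (τ (v s) : M) : Qb)‖ ≤
      δ * ∏ s, (max 1 ‖φ (τ (u s) : M)‖ * max 1 ‖φ (τ (v s) : M)‖)) →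
    (T.card : ℝ) * -Real.log δ ≤
      (Module.finrank ℚ M : ℝ) * ∑ s, (ht (u s : Qb) + ht (v s : Qb) + Real.log 2)

/-- the descent step for radical extensions -/
def S_GL : Prop := ∀ (p : ℕ) [Fact p.Prime] (φ : Qb →+* PadicAlgCl p) (κ m D B : ℕ),
  ∃ (k : ℕ) (c : ℝ), 0 < c ∧ ∀ (K E : GF) (σ₀ σ : Aut) (β : Qb) (S : Finset Aut),
    FiniteDimensional ℚ K → Module.finrank ℚ K ≤ κ → FiniteDimensional ℚ E → K ≤ E →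
    NormalOver K E → Fix K σ₀ → Fix K σ → Gap p φ E σ₀ B →
    S.card ≤ m → (∀ τ : Aut, Fix K τ → ∃ s ∈ S, AgreeOn E (τ * σ₀ * τ⁻¹) s) →
    (∃ τ : Aut, Fix K τ ∧ AgreeOn E (τ * σ₀ * τ⁻¹) σ) →
    β ≠ 0 → (orb E β).ncard ≤ D →
    (∀ σ' : Aut, Fix K σ' → AgreeOn E σ' σ → ht (σ' β / β) ≤ c) →
    ∃ σ' : Aut, Fix K σ' ∧ AgreeOn E σ' σ ∧ (σ' β) ^ (p ^ k) = β ^ (p ^ k)

/-- the Frobenius step -/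
def S_GLF : Prop := ∀ (p : ℕ) [Fact p.Prime] (φ : Qb →+* PadicAlgCl p) (κ D n₁ : ℕ),
  ∃ c : ℝ, 0 < c ∧ ∀ (K E : GF) (σ : Aut) (a : ℕ) (β : Qb),
    FiniteDimensional ℚ K → Module.finrank ℚ K ≤ κ → FiniteDimensional ℚ E → K ≤ E →
    NormalOver K E → Fix K σ → (∀ τ : Aut, Fix K τ → ∀ x ∈ E, τ (σ x) = σ (τ x)) →
    0 < a → a ≤ n₁ →
    (∀ x ∈ E, ‖φ x‖ ≤ 1 → ‖φ (σ x - x ^ (p ^ a))‖ ^ n₁ ≤ (p : ℝ)⁻¹) →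
    β ≠ 0 → (orb E β).ncard ≤ D → ht β ≤ c → Tor β

/-- Frobenius elements -/
def S_FROB : Prop := ∀ (p : ℕ) [Fact p.Prime] (φ : Qb →+* PadicAlgCl p) (K : GF),
  FiniteDimensional ℚ K → ∃ n₁ : ℕ, ∀ M' : ℕ, ¬ p ∣ M' →
    ∃ (M'' : ℕ) (σ : Aut) (a : ℕ), ¬ p ∣ M'' ∧ M' ∣ M'' ∧ Fix K σ ∧ 0 < a ∧ a ≤ n₁ ∧
      (∀ ζ : Qb, ζ ^ M'' = 1 → σ ζ = ζ ^ (p ^ a)) ∧
      (∀ x ∈ lev K ⊥ M'' 1, ‖φ x‖ ≤ 1 → ‖φ (σ x - x ^ (p ^ a))‖ ^ n₁ ≤ (p : ℝ)⁻¹)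

/-- the local main theorem for number fields -/
def S_LT : Prop := ∀ (p : ℕ) [Fact p.Prime] (φ : Qb →+* PadicAlgCl p) (K : GF)
  (Γ : Subgroup Qbˣ), FiniteDimensional ℚ K → Γ.FG → (∀ g ∈ Γ, (g : Qb) ∈ K) →
  ∀ J : ℕ, ∃ B : ℕ, 0 < B ∧ ∀ m i n M M' : ℕ, B ≤ m → n ≤ i → m ≤ i → i ≤ m + J →
    ¬ p ∣ M → ¬ p ∣ M' → ∃ σ : Aut,
      Fix (lev K Γ (p ^ (m - 1) * M') (p ^ (min n (m - B)) * M)) σ ∧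
      (∀ ζ : Qb, IsPrimitiveRoot ζ (p ^ m) → σ ζ ≠ ζ) ∧
      Gap p φ (lev K Γ (p ^ i * M') (p ^ n * M)) σ B

/-- Kummer duality, first half -/
def S_KDA : Prop := ∀ (L : GF) (N : ℕ) (S : Subgroup Qbˣ), 0 < N →
  (∀ x : Qb, x ^ N = 1 → x ∈ L) → (∀ y ∈ S, (y : Qb) ^ N ∈ L) →
  (∃ T : Finset Qbˣ, ∀ y ∈ S, ∃ t ∈ T, ((y / t : Qbˣ) : Qb) ∈ L) →
  ∀ θ : S →* Qbˣ, (∀ y, θ y ^ N = 1) → (∀ y : S, ((y : Qbˣ) : Qb) ∈ L → θ y = 1) →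
    ∃ τ : Aut, Fix L τ ∧ ∀ y : S, τ ((y : Qbˣ) : Qb) = (θ y : Qb) * ((y : Qbˣ) : Qb)

/-- Kummer duality, second half -/
def S_KDB : Prop := ∀ (L : GF) (N : ℕ) (S : Subgroup Qbˣ), 0 < N →
  (∀ x : Qb, x ^ N = 1 → x ∈ L) → (∀ y ∈ S, (y : Qb) ^ N ∈ L) →
  (∃ T : Finset Qbˣ, ∀ y ∈ S, ∃ t ∈ T, ((y / t : Qbˣ) : Qb) ∈ L) →
  ∀ c : Aut → Qb, (∀ τ τ' : Aut, Fix L τ → Fix L τ' → c (τ * τ') = c τ * c τ') →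
    (∀ τ : Aut, Fix L τ → c τ ^ N = 1) →
    (∀ τ : Aut, Fix L τ → (∀ y ∈ S, τ (y : Qb) = y) → c τ = 1) →
    ∃ γ ∈ S, ∀ τ : Aut, Fix L τ → τ (γ : Qb) = c τ * γ

/-- the Bogomolov property relative to `K(μ_∞)` with bounded degree -/
def S_BOG : Prop := ∀ K : GF, FiniteDimensional ℚ K → ∀ D : ℕ, ∃ c : ℝ, 0 < c ∧
  ∀ y : Qb, y ≠ 0 → (orb (kinf K) y).ncard ≤ D → ¬ Tor y → c ≤ ht y

/-- finiteness: the elements of `K(μ_∞)` in the division group of `Γ` -/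
def S_FIN : Prop := ∀ (K : GF) (Γ : Subgroup Qbˣ), FiniteDimensional ℚ K → Γ.FG →
  (∀ g ∈ Γ, (g : Qb) ∈ K) → ∃ e : ℕ, 0 < e ∧ ∀ y ∈ kinf K, y ≠ 0 → DivG Γ y →
    ∃ g ∈ Γ, ∃ ζ : Qb, Tor ζ ∧ y ^ e = ζ * (g : Qb)

/-- Kummer independence -/
def S_KI : Prop := ∀ (p : ℕ) [Fact p.Prime] (K : GF) (Γ : Subgroup Qbˣ),
  FiniteDimensional ℚ K → Γ.FG → (∀ g ∈ Γ, (g : Qb) ∈ K) →
  ∃ c : ℕ, ∀ n M : ℕ, c < n → ¬ p ∣ M → ∀ w : Aut, Fix (levInf K Γ (p ^ (n - 1) * M)) w →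
    ∃ τ : Aut, Fix (kinf K) τ ∧ ∀ y : Qb, (∃ g ∈ Γ, y ^ (p ^ n * M) = (g : Qb)) →
      (τ y / y) ^ (p ^ n) = 1 ∧ (τ y / y) ^ (p ^ (n - 1 - c)) = w y / y

/-- the cyclotomic step -/
def S_CS : Prop := ∀ (p : ℕ) [Fact p.Prime] (φ : Qb →+* PadicAlgCl p) (K : GF)
  (Γ : Subgroup Qbˣ), FiniteDimensional ℚ K → Γ.FG → (∀ g ∈ Γ, (g : Qb) ∈ K) → ∀ D : ℕ,
  ∃ (B : ℕ) (c : ℝ), 0 < c ∧ ∀ (Finf : GF) (i n M M' : ℕ) (β : Qb), n + B ≤ i →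
    ¬ p ∣ M → ¬ p ∣ M' → kinf K ≤ Finf → lev K Γ (p ^ i * M') (p ^ n * M) ≤ Finf →
    NormalOver K Finf → β ≠ 0 → (orb Finf β).ncard ≤ D → TorRigid Finf β →
    Rigid Finf (lev K Γ (p ^ i * M') (p ^ n * M)) β →
    (∀ σ : Aut, Fix K σ → ht (σ β / β) ≤ c) →
    ∃ γ : Qb, Tor γ ∧ Rigid Finf (lev K Γ (p ^ (i - 1) * M') (p ^ n * M)) (β / γ)

/-- the Kummer step -/
def S_KS : Prop := ∀ (p : ℕ) [Fact p.Prime] (φ : Qb →+* PadicAlgCl p) (K : GF)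
  (Γ : Subgroup Qbˣ), FiniteDimensional ℚ K → Γ.FG → (∀ g ∈ Γ, (g : Qb) ∈ K) → ∀ D J : ℕ,
  ∃ (n₀ : ℕ) (c : ℝ), 0 < c ∧ ∀ (Finf : GF) (i n M M' : ℕ) (β : Qb), n₀ ≤ n → n ≤ i →
    i ≤ n + J → ¬ p ∣ M → ¬ p ∣ M' → levInf K Γ (p ^ n * M) ≤ Finf →
    NormalOver K Finf → β ≠ 0 → (orb Finf β).ncard ≤ D → TorRigid Finf β →
    Rigid Finf (lev K Γ (p ^ i * M') (p ^ n * M)) β →
    (∀ σ : Aut, Fix K σ → ht (σ β / β) ≤ c) →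
    ∃ γ : Qb, (∃ g ∈ Γ, γ ^ (p ^ n * M) = (g : Qb)) ∧
      Rigid Finf (levInf K Γ (p ^ (n - 1) * M)) (β / γ)

/-- the main theorem -/
def S_MAIN : Prop := ∀ (K : GF) (Γ : Subgroup Qbˣ), FiniteDimensional ℚ K → Γ.FG →
  (∀ g ∈ Γ, (g : Qb) ∈ K) → ∀ (P : Finset ℕ), (∀ p ∈ P, p.Prime) → ∀ D : ℕ,
  ∃ c : ℝ, 0 < c ∧ ∀ α : Qb, α ≠ 0 → (orb (fullField K Γ P) α).ncard ≤ D → ¬ DivG Γ α →
    c ≤ ht α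

end Pool.Agent.W237.RK
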