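import Mathlib
import Pool.Agent.W237.RK.Defs
import Pool.Agent.W237.RK.GalGen
import Pool.Agent.H58R.Loc

set_option autoImplicit false
set_option linter.unusedVariables false

/-!
# Global basic lemmas
-/

namespace Pool.Agent.W237.RK

open Polynomial IntermediateField
open Pool.Agent.H58P (Qb ht)

instance instAlgQb : Algebra.IsAlgebraic ℚ Qb := AlgebraicClosure.isAlgebraic ℚ

lemma orb_eq (F : GF) (x : Qb) : orb F x = gorb F x := rfl

lemma fix_mono {F F' : GF} (h : F ≤ F') {σ : Aut} (hσ : Fix F' σ) : Fix F σ := gfix_mono h hσ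

lemma fix_one (F : GF) : Fix F (1 : Aut) := gfix_one F

lemma fix_mul {F : GF} {σ τ : Aut} (hσ : Fix F σ) (hτ : Fix F τ) : Fix F (σ * τ) := gfix_mul hσ hτ

lemma fix_inv {F : GF} {σ : Aut} (hσ : Fix F σ) : Fix F σ⁻¹ := gfix_inv hσ

lemma fix_pow {F : GF} {σ : Aut} (hσ : Fix F σ) (n : ℕ) : Fix F (σ ^ n) := gfix_pow hσ n

lemma inv_apply_self (σ : Aut) (x : Qb) : σ⁻¹ (σ x) = x := AlgEquiv.symm_apply_apply σ x

lemma apply_inv_self (σ : Aut) (x : Qb) : σ (σ⁻¹ x) = x := AlgEquiv.apply_symm_apply σ x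

lemma orb_finite (F : GF) (x : Qb) : (orb F x).Finite := gorb_finite F x

lemma orb_ncard (F : GF) (x : Qb) : (orb F x).ncard = (minpoly F x).natDegree := gorb_ncard F x

lemma orb_ncard_pos (F : GF) (x : Qb) : 0 < (orb F x).ncard := gorb_ncard_pos F x

lemma self_mem_orb (F : GF) (x : Qb) : x ∈ orb F x := self_mem_gorb F x

lemma mem_of_fix (F : GF) (x : Qb) (h : ∀ σ : Aut, Fix F σ → σ x = x) : x ∈ F := mem_of_gfix F x h

lemma exists_fix_of_root (F : GF) (x y : Qb) (h : aeval y (minpoly F x) = 0) :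
    ∃ σ : Aut, Fix F σ ∧ σ x = y := exists_gfix_of_root F x y h

lemma mem_orb_iff (F : GF) (x y : Qb) : y ∈ orb F x ↔ aeval y (minpoly F x) = 0 :=
  mem_gorb_iff F x y

lemma minpoly_map_eq_oprod (F : GF) (x : Qb) :
    (minpoly F x).map (algebraMap F Qb) = ∏ y ∈ (orb_finite F x).toFinset, (X - C y) :=
  minpoly_map_eq_prod F x

lemma orb_mono {F F' : GF} (h : F ≤ F') (x : Qb) : orb F' x ⊆ orb F x := by
  rintro _ ⟨σ, hσ, rfl⟩
  exact ⟨σ, fix_mono h hσ, rfl⟩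

/-! ### roots of unity -/

lemma Tor.ne_zero {x : Qb} (h : Tor x) : x ≠ 0 := by
  obtain ⟨n, hn, hx⟩ := h
  rintro rfl
  rw [zero_pow hn.ne'] at hx
  exact zero_ne_one hx

lemma tor_one : Tor 1 := ⟨1, one_pos, one_pow 1⟩

lemma Tor.mul {x y : Qb} (hx : Tor x) (hy : Tor y) : Tor (x * y) := by
  obtain ⟨n, hn, hx⟩ := hx
  obtain ⟨m, hm, hy⟩ := hy
  refine ⟨n * m, Nat.mul_pos hn hm, ?_⟩
  rw [mul_pow, pow_mul, hx, one_pow, mul_comm n m, pow_mul, hy, one_pow, one_mul]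

lemma Tor.inv {x : Qb} (hx : Tor x) : Tor x⁻¹ := by
  obtain ⟨n, hn, hx⟩ := hx
  exact ⟨n, hn, by rw [inv_pow, hx, inv_one]⟩

lemma Tor.div {x y : Qb} (hx : Tor x) (hy : Tor y) : Tor (x / y) := by
  rw [div_eq_mul_inv]; exact hx.mul hy.inv

lemma Tor.pow {x : Qb} (hx : Tor x) (m : ℕ) : Tor (x ^ m) := by
  obtain ⟨n, hn, hx⟩ := hx
  exact ⟨n, hn, by rw [← pow_mul, mul_comm, pow_mul, hx, one_pow]⟩

lemma Tor.of_pow {x : Qb} {m : ℕ} (hm : 0 < m) (hx : Tor (x ^ m)) : Tor x := by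
  obtain ⟨n, hn, hx⟩ := hx
  exact ⟨m * n, Nat.mul_pos hm hn, by rw [pow_mul, hx]⟩

lemma Tor.map {x : Qb} (hx : Tor x) (σ : Aut) : Tor (σ x) := by
  obtain ⟨n, hn, hx⟩ := hx
  exact ⟨n, hn, by rw [← map_pow, hx, map_one]⟩

lemma tor_map_iff {x : Qb} (σ : Aut) : Tor (σ x) ↔ Tor x := by
  refine ⟨fun h => ?_, fun h => h.map σ⟩
  have := h.map σ⁻¹
  rwa [inv_apply_self] at this

lemma ht_tor {x : Qb} (h : Tor x) : ht x = 0 := by
  obtain ⟨n, hn, hx⟩ := h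
  exact Pool.Agent.H58R.ht_of_pow_eq_one x n hn hx

lemma ht_tor_mul {ω y : Qb} (h : Tor ω) : ht (ω * y) = ht y := by
  obtain ⟨n, hn, hx⟩ := h
  exact Pool.Agent.H58R.ht_unit_mul ω y n hn hx

/-! ### the fields -/

lemma le_lev (K : GF) (Γ : Subgroup Qbˣ) (N R : ℕ) : K ≤ lev K Γ N R := le_sup_left

lemma le_levInf (K : GF) (Γ : Subgroup Qbˣ) (R : ℕ) : K ≤ levInf K Γ R := le_sup_left

lemma le_kinf (K : GF) : K ≤ kinf K := le_sup_left

lemma le_fullField (K : GF) (Γ : Subgroup Qbˣ) (P : Finset ℕ) : K ≤ fullField K Γ P := le_sup_left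

lemma root_mem_lev (K : GF) (Γ : Subgroup Qbˣ) {N R : ℕ} {x : Qb} (h : x ^ N = 1) :
    x ∈ lev K Γ N R :=
  (le_sup_right : _ ≤ lev K Γ N R) (subset_adjoin _ _ (Or.inl h))

lemma rad_mem_lev (K : GF) (Γ : Subgroup Qbˣ) {N R : ℕ} {y : Qb} (h : ∃ g ∈ Γ, y ^ R = (g : Qb)) :
    y ∈ lev K Γ N R :=
  (le_sup_right : _ ≤ lev K Γ N R) (subset_adjoin _ _ (Or.inr h))

lemma tor_mem_kinf (K : GF) {x : Qb} (h : Tor x) : x ∈ kinf K :=
  (le_sup_right : _ ≤ kinf K) (subset_adjoin _ _ h)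

lemma kinf_le_levInf (K : GF) (Γ : Subgroup Qbˣ) (R : ℕ) : kinf K ≤ levInf K Γ R := by
  apply sup_le (le_levInf K Γ R)
  rw [adjoin_le_iff]
  intro x hx
  exact (le_sup_right : _ ≤ levInf K Γ R) (subset_adjoin _ _ (Or.inl hx))

lemma kinf_le_fullField (K : GF) (Γ : Subgroup Qbˣ) (P : Finset ℕ) : kinf K ≤ fullField K Γ P := by
  apply sup_le (le_fullField K Γ P)
  rw [adjoin_le_iff]
  intro x hx
  exact (le_sup_right : _ ≤ fullField K Γ P) (subset_adjoin _ _ (Or.inl hx))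

lemma tor_mem_levInf (K : GF) (Γ : Subgroup Qbˣ) {R : ℕ} {x : Qb} (h : Tor x) : x ∈ levInf K Γ R :=
  kinf_le_levInf K Γ R (tor_mem_kinf K h)

lemma rad_mem_levInf (K : GF) (Γ : Subgroup Qbˣ) {R : ℕ} {y : Qb}
    (h : ∃ g ∈ Γ, y ^ R = (g : Qb)) : y ∈ levInf K Γ R :=
  (le_sup_right : _ ≤ levInf K Γ R) (subset_adjoin _ _ (Or.inr h))

lemma lev_le {K : GF} {Γ : Subgroup Qbˣ} {N R : ℕ} {F : GF} (hK : K ≤ F)
    (h1 : ∀ x : Qb, x ^ N = 1 → x ∈ F) (h2 : ∀ y : Qb, (∃ g ∈ Γ, y ^ R = (g : Qb)) → y ∈ F) :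
    lev K Γ N R ≤ F := by
  apply sup_le hK
  rw [adjoin_le_iff]
  rintro x (hx | hx)
  · exact h1 x hx
  · exact h2 x hx

lemma levInf_le {K : GF} {Γ : Subgroup Qbˣ} {R : ℕ} {F : GF} (hK : K ≤ F)
    (h1 : ∀ x : Qb, Tor x → x ∈ F) (h2 : ∀ y : Qb, (∃ g ∈ Γ, y ^ R = (g : Qb)) → y ∈ F) :
    levInf K Γ R ≤ F := by
  apply sup_le hK
  rw [adjoin_le_iff]
  rintro x (hx | hx)
  · exact h1 x hx
  · exact h2 x hx

/-- an `R`-th root of an element of `Γ` is a power of an `R'`-th root if `R ∣ R'` -/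
lemma rad_pow {Γ : Subgroup Qbˣ} {R R' : ℕ} (hR' : 0 < R') (h : R ∣ R') {y : Qb}
    (hy : ∃ g ∈ Γ, y ^ R = (g : Qb)) : ∃ z : Qb, (∃ g ∈ Γ, z ^ R' = (g : Qb)) ∧ z ^ (R' / R) = y := by
  obtain ⟨g, hg, hy⟩ := hy
  obtain ⟨k, rfl⟩ := h
  have hk : 0 < k := Nat.pos_of_mul_pos_left hR'
  have hR : 0 < R := Nat.pos_of_mul_pos_right hR'
  obtain ⟨z, hz⟩ := IsAlgClosed.exists_pow_nat_eq y hk
  refine ⟨z, ⟨g, hg, ?_⟩, ?_⟩
  · rw [mul_comm, pow_mul, hz, hy]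
  · rw [Nat.mul_div_cancel_left k hR, hz]

lemma lev_mono (K : GF) (Γ : Subgroup Qbˣ) {N R N' R' : ℕ} (hN : N ∣ N') (hR' : 0 < R')
    (hR : R ∣ R') : lev K Γ N R ≤ lev K Γ N' R' := by
  apply lev_le (le_lev K Γ N' R')
  · intro x hx
    apply root_mem_lev
    obtain ⟨k, rfl⟩ := hN
    rw [pow_mul, hx, one_pow]
  · intro y hy
    obtain ⟨z, hz, rfl⟩ := rad_pow hR' hR hy
    exact pow_mem (rad_mem_lev K Γ hz) _

lemma lev_le_levInf (K : GF) (Γ : Subgroup Qbˣ) {N R : ℕ} (hN : 0 < N) :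
    lev K Γ N R ≤ levInf K Γ R :=
  lev_le (le_levInf K Γ R) (fun _ hx => tor_mem_levInf K Γ ⟨N, hN, hx⟩)
    (fun _ hy => rad_mem_levInf K Γ hy)

lemma levInf_mono (K : GF) (Γ : Subgroup Qbˣ) {R R' : ℕ} (hR' : 0 < R') (hR : R ∣ R') :
    levInf K Γ R ≤ levInf K Γ R' := by
  apply levInf_le (le_levInf K Γ R') (fun _ hx => tor_mem_levInf K Γ hx)
  intro y hy
  obtain ⟨z, hz, rfl⟩ := rad_pow hR' hR hy
  exact pow_mem (rad_mem_levInf K Γ hz) _

lemma levInf_le_fullField (K : GF) (Γ : Subgroup Qbˣ) {P : Finset ℕ} {R : ℕ} (h : Smooth P R) :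
    levInf K Γ R ≤ fullField K Γ P :=
  levInf_le (le_fullField K Γ P) (fun _ hx => kinf_le_fullField K Γ P (tor_mem_kinf K hx))
    (fun _ hy => (le_sup_right : _ ≤ fullField K Γ P) (subset_adjoin _ _ (Or.inr ⟨R, h, hy⟩)))

/-! ### normality -/

/-- a field generated over `K` by a set stable under automorphisms over `K` is normal over `K` -/
lemma normalOver_adjoin (K : GF) (s : Set Qb) (hs : ∀ σ : Aut, Fix K σ → ∀ x ∈ s, σ x ∈ s) :
    NormalOver K (K ⊔ adjoin ℚ s) := by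
  intro σ hσ x hx
  have h1 : (K ⊔ adjoin ℚ s) ≤ (K ⊔ adjoin ℚ s).comap (σ : Qb →ₐ[ℚ] Qb) := by
    apply sup_le
    · intro y hy
      show σ y ∈ (K ⊔ adjoin ℚ s : GF)
      rw [hσ y hy]
      exact (le_sup_left : K ≤ K ⊔ adjoin ℚ s) hy
    · rw [adjoin_le_iff]
      intro y hy
      exact (le_sup_right : adjoin ℚ s ≤ K ⊔ adjoin ℚ s) (subset_adjoin _ _ (hs σ hσ y hy))
  exact h1 hx

lemma normal_lev (K : GF) (Γ : Subgroup Qbˣ) (hΓ : ∀ g ∈ Γ, (g : Qb) ∈ K) (N R : ℕ) :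
    NormalOver K (lev K Γ N R) := by
  apply normalOver_adjoin
  rintro σ hσ x (hx | ⟨g, hg, hx⟩)
  · left
    show (σ x) ^ N = 1
    rw [← map_pow, hx, map_one]
  · right
    exact ⟨g, hg, by rw [← map_pow, hx, hσ _ (hΓ g hg)]⟩

lemma normal_levInf (K : GF) (Γ : Subgroup Qbˣ) (hΓ : ∀ g ∈ Γ, (g : Qb) ∈ K) (R : ℕ) :
    NormalOver K (levInf K Γ R) := by
  apply normalOver_adjoin
  rintro σ hσ x (hx | ⟨g, hg, hx⟩)
  · left
    exact Tor.map hx σ
  · right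
    exact ⟨g, hg, by rw [← map_pow, hx, hσ _ (hΓ g hg)]⟩

lemma normal_kinf (K : GF) : NormalOver K (kinf K) := by
  apply normalOver_adjoin
  intro σ hσ x hx
  exact Tor.map hx σ

lemma normal_fullField (K : GF) (Γ : Subgroup Qbˣ) (hΓ : ∀ g ∈ Γ, (g : Qb) ∈ K) (P : Finset ℕ) :
    NormalOver K (fullField K Γ P) := by
  apply normalOver_adjoin
  rintro σ hσ x (hx | ⟨n, hn, g, hg, hx⟩)
  · left
    exact Tor.map hx σ
  · right
    exact ⟨n, hn, g, hg, by rw [← map_pow, hx, hσ _ (hΓ g hg)]⟩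

/-- conjugation of an element of the fixer of a normal field -/
lemma fix_conj {K F : GF} (h : NormalOver K F) {σ ρ : Aut} (hσ : Fix K σ) (hρ : Fix F ρ) :
    Fix F (σ * ρ * σ⁻¹) := by
  intro x hx
  show σ (ρ (σ⁻¹ x)) = x
  rw [hρ _ (h σ⁻¹ (fix_inv hσ) x hx), apply_inv_self]

lemma fix_conj' {K F : GF} (h : NormalOver K F) {σ ρ : Aut} (hσ : Fix K σ) (hρ : Fix F ρ) :
    Fix F (σ⁻¹ * ρ * σ) := by
  intro x hx
  show σ⁻¹ (ρ (σ x)) = x
  rw [hρ _ (h σ hσ x hx), inv_apply_self]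

/-! ### finite levels -/

lemma exists_lev_of_mem (K : GF) (Γ : Subgroup Qbˣ) (R : ℕ) (x : Qb) (hx : x ∈ levInf K Γ R) :
    ∃ N : ℕ, 0 < N ∧ x ∈ lev K Γ N R := by
  have hmono : ∀ N N' : ℕ, 0 < N → 0 < N' → lev K Γ N R ≤ lev K Γ (N * N') R := by
    intro N N' hN hN'
    apply lev_le (le_lev K Γ _ R)
    · intro x hx
      apply root_mem_lev
      rw [pow_mul, hx, one_pow]
    · intro y hy
      exact rad_mem_lev K Γ hy
  have hmono' : ∀ N N' : ℕ, 0 < N → 0 < N' → lev K Γ N' R ≤ lev K Γ (N * N') R := by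
    intro N N' hN hN'
    rw [mul_comm]
    exact hmono N' N hN' hN
  let U : GF :=
    { carrier := {x | ∃ N : ℕ, 0 < N ∧ x ∈ lev K Γ N R}
      mul_mem' := by
        rintro x y ⟨N, hN, hx⟩ ⟨N', hN', hy⟩
        exact ⟨N * N', Nat.mul_pos hN hN', mul_mem (hmono N N' hN hN' hx) (hmono' N N' hN hN' hy)⟩
      add_mem' := by
        rintro x y ⟨N, hN, hx⟩ ⟨N', hN', hy⟩
        exact ⟨N * N', Nat.mul_pos hN hN', add_mem (hmono N N' hN hN' hx) (hmono' N N' hN hN' hy)⟩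
      algebraMap_mem' := fun r => ⟨1, one_pos, IntermediateField.algebraMap_mem _ r⟩
      inv_mem' := by
        rintro x ⟨N, hN, hx⟩
        exact ⟨N, hN, inv_mem hx⟩ }
  have hU : levInf K Γ R ≤ U := by
    apply levInf_le
    · intro x hx
      exact ⟨1, one_pos, le_lev K Γ 1 R hx⟩
    · rintro x ⟨N, hN, hx⟩
      exact ⟨N, hN, root_mem_lev K Γ hx⟩
    · intro y hy
      exact ⟨1, one_pos, rad_mem_lev K Γ hy⟩
  exact hU hx

lemma exists_lev_of_finite (K : GF) (Γ : Subgroup Qbˣ) (R : ℕ) (s : Set Qb) (hs : s.Finite)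
    (h : ∀ x ∈ s, x ∈ levInf K Γ R) : ∃ N : ℕ, 0 < N ∧ ∀ x ∈ s, x ∈ lev K Γ N R := by
  induction s, hs using Set.Finite.induction_on with
  | empty => exact ⟨1, one_pos, fun x hx => absurd hx (Set.notMem_empty x)⟩
  | @insert a s _ _ ih =>
    obtain ⟨N, hN, h1⟩ := ih fun x hx => h x (Set.mem_insert_of_mem _ hx)
    obtain ⟨N', hN', h2⟩ := exists_lev_of_mem K Γ R a (h a (Set.mem_insert _ _))
    refine ⟨N * N', Nat.mul_pos hN hN', ?_⟩
    have hm : ∀ N N' : ℕ, lev K Γ N R ≤ lev K Γ (N * N') R := by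
      intro N N'
      apply lev_le (le_lev K Γ _ R)
      · intro x hx
        apply root_mem_lev
        rw [pow_mul, hx, one_pow]
      · intro y hy
        exact rad_mem_lev K Γ hy
    intro x hx
    rcases Set.mem_insert_iff.mp hx with rfl | hx
    · rw [mul_comm]
      exact hm _ _ h2
    · exact hm _ _ (h1 x hx)

lemma rigid_mono {Finf F F' : GF} (h : F ≤ F') {β : Qb} (hr : Rigid Finf F β) :
    Rigid Finf F' β := fun κ hκ => hr κ (fix_mono h hκ)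

lemma orb_eq_of_rigid {Finf F : GF} (h : F ≤ Finf) {β : Qb} (hr : Rigid Finf F β) :
    orb F β = orb Finf β := by
  apply Set.Subset.antisymm
  · rintro _ ⟨κ, hκ, rfl⟩
    obtain ⟨ρ, hρ, h2⟩ := hr κ hκ
    exact ⟨ρ, hρ, h2.symm⟩
  · exact orb_mono h β

/-- rigidity at an infinite level implies rigidity at a finite level -/
theorem exists_rigid_lev (Finf K : GF) (Γ : Subgroup Qbˣ) (R : ℕ) (β : Qb)
    (h : Rigid Finf (levInf K Γ R) β) : ∃ N : ℕ, 0 < N ∧ Rigid Finf (lev K Γ N R) β := by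
  set F := levInf K Γ R with hF
  obtain ⟨N, hN, h1⟩ := exists_lev_of_finite K Γ R
    (Set.range fun j : Fin ((minpoly F β).natDegree + 1) => ((minpoly F β).coeff j : Qb))
    (Set.finite_range _) (by rintro _ ⟨j, rfl⟩; exact ((minpoly F β).coeff j).2)
  refine ⟨N, hN, fun κ hκ => ?_⟩
  have h2 : ∀ j : ℕ, κ ((minpoly F β).coeff j : Qb) = ((minpoly F β).coeff j : Qb) := by
    intro j
    by_cases hj : j < (minpoly F β).natDegree + 1
    · exact hκ _ (h1 _ ⟨⟨j, hj⟩, rfl⟩)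
    · rw [coeff_eq_zero_of_natDegree_lt (by omega)]
      simp
  have h3 : aeval (κ β) (minpoly F β) = 0 := by
    have h4 : κ (aeval β (minpoly F β)) = aeval (κ β) (minpoly F β) := by
      rw [aeval_eq_sum_range, aeval_eq_sum_range, map_sum]
      apply Finset.sum_congr rfl
      intro j _
      rw [Algebra.smul_def, Algebra.smul_def, map_mul, map_pow]
      congr 1
      exact h2 j
    rw [← h4, minpoly.aeval, map_zero]
  obtain ⟨ρ', hρ', h5⟩ := exists_fix_of_root F β (κ β) h3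
  obtain ⟨ρ, hρ, h6⟩ := h ρ' hρ'
  exact ⟨ρ, hρ, by rw [← h5, h6]⟩

/-! ### modifications -/

lemma rigid_div {Finf F : GF} {β γ : Qb} (hr : Rigid Finf F β) (hγ : γ ∈ F) (h : F ≤ Finf) :
    Rigid Finf F (β / γ) := by
  intro κ hκ
  obtain ⟨ρ, hρ, h2⟩ := hr κ hκ
  refine ⟨ρ, hρ, ?_⟩
  rw [map_div₀, map_div₀, h2, hκ γ hγ, hρ γ (h hγ)]

lemma torRigid_div {Finf : GF} {β γ : Qb} (hr : TorRigid Finf β) (hγ0 : γ ≠ 0) (hγ : γ ∈ Finf) :
    TorRigid Finf (β / γ) := by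
  intro ρ hρ ht
  have h1 : ρ (β / γ) = ρ β / γ := by rw [map_div₀, hρ γ hγ]
  rw [h1]
  rw [h1] at ht
  have h2 : ρ β / γ / (β / γ) = ρ β / β := by
    rw [div_div_div_cancel_right₀ hγ0]
  rw [h2] at ht
  rw [hr ρ hρ ht]

lemma orb_div {Finf : GF} {β γ : Qb} (hγ0 : γ ≠ 0) (hγ : γ ∈ Finf) :
    orb Finf (β / γ) = (fun x => x / γ) '' orb Finf β := by
  ext y
  constructor
  · rintro ⟨ρ, hρ, rfl⟩
    exact ⟨ρ β, ⟨ρ, hρ, rfl⟩, by rw [map_div₀, hρ γ hγ]⟩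
  · rintro ⟨_, ⟨ρ, hρ, rfl⟩, rfl⟩
    exact ⟨ρ, hρ, by rw [map_div₀, hρ γ hγ]⟩

lemma orb_div_ncard {Finf : GF} {β γ : Qb} (hγ0 : γ ≠ 0) (hγ : γ ∈ Finf) :
    (orb Finf (β / γ)).ncard = (orb Finf β).ncard := by
  rw [orb_div hγ0 hγ]
  apply Set.ncard_image_of_injective
  intro x y hxy
  have : x / γ = y / γ := hxy
  field_simp at this
  exact this

/-- heights of `σ β / β` after division by an element of the division group -/
lemma ht_div {β γ : Qb} {σ : Aut} (hγ0 : γ ≠ 0) (h : Tor (σ γ / γ)) :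
    ht (σ (β / γ) / (β / γ)) = ht (σ β / β) := by
  have e : σ (β / γ) / (β / γ) = (σ γ / γ)⁻¹ * (σ β / β) := by
    have : σ γ ≠ 0 := (map_ne_zero σ).mpr hγ0
    rw [map_div₀]
    by_cases hβ : β = 0
    · simp [hβ]
    · field_simp
  rw [e, ht_tor_mul h.inv]

lemma tor_ratio {K : GF} {Γ : Subgroup Qbˣ} (hΓ : ∀ g ∈ Γ, (g : Qb) ∈ K) {γ : Qb} (hγ0 : γ ≠ 0)
    (h : DivG Γ γ) {σ : Aut} (hσ : Fix K σ) : Tor (σ γ / γ) := by
  obtain ⟨n, hn, g, hg, h1⟩ := h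
  refine ⟨n, hn, ?_⟩
  rw [div_pow, ← map_pow, h1, hσ _ (hΓ g hg), div_self]
  exact Units.ne_zero g

/-- `α ^ D!` is torsion-rigid if `α` has at most `D` conjugates -/
lemma torRigid_factorial {Finf : GF} (h : ∀ x : Qb, Tor x → x ∈ Finf) {α : Qb} (hα : α ≠ 0)
    {D : ℕ} (hD : (orb Finf α).ncard ≤ D) : TorRigid Finf (α ^ D.factorial) := by
  intro ρ hρ ht
  have hη : Tor (ρ α / α) := by
    rw [map_pow, ← div_pow] at ht
    exact Tor.of_pow (Nat.factorial_pos D) ht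
  set η := ρ α / α with hηdef
  have h1 : ρ α = η * α := by rw [hηdef]; field_simp
  have hρη : ρ η = η := hρ η (h η hη)
  have h2 : ∀ j : ℕ, (ρ ^ j) α = η ^ j * α := by
    intro j
    induction j with
    | zero => simp
    | succ j ih =>
      rw [pow_succ', AlgEquiv.mul_apply, ih, map_mul, map_pow, hρη, h1]
      ring
  have h3 : ∃ j : ℕ, 0 < j ∧ j ≤ D ∧ η ^ j = 1 := by
    by_contra hcon
    push Not at hcon
    have hinj : Set.InjOn (fun j : ℕ => η ^ j * α) (Finset.range (D + 1) : Set ℕ) := by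
      intro i hi j hj hij
      have hij' : η ^ i = η ^ j := mul_right_cancel₀ hα hij
      simp only [Finset.coe_range, Set.mem_Iio] at hi hj
      by_contra hne
      rcases lt_or_gt_of_ne hne with hlt | hlt
      · apply hcon (j - i) (by omega) (by omega)
        have : η ^ i * η ^ (j - i) = η ^ i * 1 := by
          rw [← pow_add, Nat.add_sub_cancel' hlt.le, mul_one, hij']
        exact mul_left_cancel₀ (pow_ne_zero _ hη.ne_zero) this
      · apply hcon (i - j) (by omega) (by omega)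
        have : η ^ j * η ^ (i - j) = η ^ j * 1 := by
          rw [← pow_add, Nat.add_sub_cancel' hlt.le, mul_one, hij']
        exact mul_left_cancel₀ (pow_ne_zero _ hη.ne_zero) this
    have hsub : (fun j : ℕ => η ^ j * α) '' (Finset.range (D + 1) : Set ℕ) ⊆ orb Finf α := by
      rintro _ ⟨j, -, rfl⟩
      exact ⟨ρ ^ j, fix_pow hρ j, h2 j⟩
    have hcard := Set.ncard_le_ncard hsub (orb_finite Finf α)
    rw [hinj.ncard_image, Set.ncard_coe_finset, Finset.card_range] at hcard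
    omega
  obtain ⟨j, hj0, hjD, hj⟩ := h3
  rw [map_pow, h1, mul_pow]
  obtain ⟨m, hm⟩ := Nat.dvd_factorial hj0 hjD
  rw [hm, pow_mul η, hj, one_pow, one_mul]

lemma orb_pow_ncard {F : GF} (α : Qb) (n : ℕ) :
    (orb F (α ^ n)).ncard ≤ (orb F α).ncard := by
  have : orb F (α ^ n) = (fun x => x ^ n) '' orb F α := by
    ext y
    constructor
    · rintro ⟨ρ, hρ, rfl⟩
      exact ⟨ρ α, ⟨ρ, hρ, rfl⟩, by rw [map_pow]⟩
    · rintro ⟨_, ⟨ρ, hρ, rfl⟩, rfl⟩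
      exact ⟨ρ, hρ, by rw [map_pow]⟩
  rw [this]
  exact Set.ncard_image_le (orb_finite F α)

end Pool.Agent.W237.RK
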