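import Mathlib
import Pool.Agent.W237.RK.KS1

set_option autoImplicit false
set_option linter.unusedVariables false

/-!
# The Kummer step
-/

namespace Pool.Agent.W237.RK

open Polynomial IntermediateField
open Pool.Agent.H58P (Qb ht)

/-- fixing the lower level and the `R`-th roots means fixing the level -/
lemma fix_lev_of {K : GF} {Γ : Subgroup Qbˣ} {R R' N : ℕ} (hN : 0 < N) {w : Aut}
    (hw : Fix (levInf K Γ R') w)
    (h2 : ∀ y : Qb, (∃ g ∈ Γ, y ^ R = (g : Qb)) → w y = y) : Fix (lev K Γ N R) w :=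
  fix_lev_iff (fix_mono (le_levInf K Γ R') hw)
    (fun x hx => hw x (tor_mem_levInf K Γ ⟨N, hN, hx⟩)) h2

theorem ks : S_GL → S_LT → S_KI → S_KDB → S_KS := by
  intro hGL hLT hKI hKDB p _ φ K Γ hKfd hΓfg hΓ D J
  classical
  have hp : p.Prime := Fact.out
  obtain ⟨s, g, hgΓ, hg⟩ := exists_gens Γ hΓfg
  obtain ⟨cK, hcK⟩ := hKI p K Γ hKfd hΓfg hΓ
  obtain ⟨B, hB0, hB⟩ := hLT p φ K Γ hKfd hΓfg hΓ (cK + J)
  obtain ⟨k, c, hc, hgl⟩ := hGL p φ (Module.finrank ℚ K) ((p ^ (cK + B)) ^ s) D B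
  refine ⟨cK + B + 2, c, hc, ?_⟩
  intro Finf i n M M' β hn hni hiJ hM hM' hFinf hnorm hβ hD htr hrig hht
  have hMpos : 0 < M := Nat.pos_of_ne_zero (by rintro rfl; exact hM (dvd_zero p))
  have hM'pos : 0 < M' := Nat.pos_of_ne_zero (by rintro rfl; exact hM' (dvd_zero p))
  have hNpos : 0 < p ^ i * M' := Nat.mul_pos (pow_pos hp.pos i) hM'pos
  have hRpos : 0 < p ^ n * M := Nat.mul_pos (pow_pos hp.pos n) hMpos
  set E := lev K Γ (p ^ i * M') (p ^ n * M) with hE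
  have hEinf : E ≤ levInf K Γ (p ^ n * M) := lev_le_levInf K Γ hNpos
  have hEFinf : E ≤ Finf := hEinf.trans hFinf
  have hKE : K ≤ E := le_lev K Γ _ _
  have hkinfF : kinf K ≤ Finf := (kinf_le_levInf K Γ _).trans hFinf
  have htorF : ∀ x : Qb, Tor x → x ∈ Finf := fun x hx => hkinfF (tor_mem_kinf K hx)
  have hEnorm : NormalOver K E := normal_lev K Γ hΓ _ _
  have hEfd : FiniteDimensional ℚ E := finiteDimensional_lev K hKfd Γ hΓfg _ _ hNpos hRpos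
  -- the local automorphism
  obtain ⟨σ₀, hσ₀fix, hσ₀prim, hσ₀gap⟩ := hB (n - cK) i n M M' (by omega) hni (by omega)
    (by omega) hM hM'
  have hσ₀K : Fix K σ₀ := fix_mono (le_lev K Γ _ _) hσ₀fix
  have hmin : min n (n - cK - B) = n - cK - B := by omega
  rw [hmin] at hσ₀fix
  have hσ₀root : ∀ x : Qb, x ^ (p ^ (n - cK - 1)) = 1 → σ₀ x = x := by
    intro x hx
    apply hσ₀fix
    apply root_mem_lev
    rw [pow_mul, hx, one_pow]
  -- the class of `σ₀`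
  obtain ⟨S, hScard, hS⟩ := conj_count K Γ hΓ s g hgΓ hg (p ^ i * M') (p ^ n * M) (p ^ (cK + B))
    (p ^ (n - cK - B) * M) (p ^ (n - cK - 1) * M') hNpos (pow_pos hp.pos _)
    (Nat.mul_pos (pow_pos hp.pos _) hMpos)
    (by
      rw [mul_right_comm, ← pow_add]
      congr 2
      omega)
    σ₀ hσ₀fix
  have horb : (orb E β).ncard ≤ D := by rwa [orb_eq_of_rigid hEFinf hrig]
  set L := levInf K Γ (p ^ (n - 1) * M) with hL
  have hKL : K ≤ L := le_levInf K Γ _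
  have hLF : L ≤ Finf := by
    refine (levInf_mono K Γ hRpos ?_).trans hFinf
    exact Nat.mul_dvd_mul_right (pow_dvd_pow p (by omega)) M
  have hKIn : ∀ w : Aut, Fix L w → ∃ τ : Aut, Fix (kinf K) τ ∧ ∀ y : Qb,
      (∃ g ∈ Γ, y ^ (p ^ n * M) = (g : Qb)) →
        (τ y / y) ^ (p ^ n) = 1 ∧ (τ y / y) ^ (p ^ (n - 1 - cK)) = w y / y :=
    fun w hw => hcK n M (by omega) hM w hw
  -- the lifts
  have hlift : ∀ w : Aut, Fix L w → ∃ σ' : Aut, Fix K σ' ∧ AgreeOn E σ' (σ₀ * w) ∧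
      ∃ ξ : Qb, Tor ξ ∧ σ' β = ξ * β := by
    intro w hw
    have hwK : Fix K w := fix_mono hKL hw
    obtain ⟨σ', h1, h2, h3⟩ := hgl K E σ₀ (σ₀ * w) β S hKfd le_rfl hEfd hKE hEnorm hσ₀K
      (fix_mul hσ₀K hwK) hσ₀gap hScard hS
      (conj_exists p K Γ hΓ cK n M (p ^ i * M') (by omega) hMpos hNpos hKIn σ₀ hσ₀K hσ₀root
        hσ₀prim w hw) hβ horb (fun σ' h _ => hht σ' h)
    refine ⟨σ', h1, h2, σ' β / β, ⟨p ^ k, pow_pos hp.pos k, ?_⟩, ?_⟩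
    · rw [div_pow, h3, div_self (pow_ne_zero _ hβ)]
    · field_simp
  obtain ⟨σs, hσs1, hσs2, ξ₀, hξ₀, hσsβ⟩ := hlift 1 (fix_one L)
  -- `w` acts on `β` by a root of unity, up to an automorphism over `Finf`
  have hact : ∀ w : Aut, Fix L w → ∃ ζ : Qb, Tor ζ ∧ ∃ ρ : Aut, Fix Finf ρ ∧ w β = ζ * ρ β := by
    intro w hw
    obtain ⟨σ', h1, h2, ξ, hξ, h3⟩ := hlift w hw
    set w' := σs⁻¹ * σ' with hw'
    have hw'K : Fix K w' := fix_mul (fix_inv hσs1) h1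
    have hw'E : AgreeOn E w' w := by
      intro x hx
      rw [hw', AlgEquiv.mul_apply, h2 x hx]
      have h4 : σs (w x) = (σ₀ * 1) (w x) := hσs2 (w x) (hEnorm w (fix_mono hKL hw) x hx)
      have h5 : (σ₀ * w) x = σs (w x) := by rw [h4]; rfl
      rw [h5, inv_apply_self]
    have hinv : σs⁻¹ β = (σs⁻¹ ξ₀)⁻¹ * β := by
      have h4 : σs⁻¹ (σs β) = β := inv_apply_self σs β
      rw [hσsβ, map_mul] at h4
      have h5 : σs⁻¹ ξ₀ ≠ 0 := (map_ne_zero σs⁻¹).mpr hξ₀.ne_zero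
      field_simp
      rw [mul_comm]
      exact h4
    have hw'β : w' β = (σs⁻¹ ξ * (σs⁻¹ ξ₀)⁻¹) * β := by
      rw [hw', AlgEquiv.mul_apply, h3, map_mul, hinv]
      ring
    have hζ : Tor (σs⁻¹ ξ * (σs⁻¹ ξ₀)⁻¹) := (hξ.map _).mul (hξ₀.map _).inv
    set ζ := σs⁻¹ ξ * (σs⁻¹ ξ₀)⁻¹ with hζdef
    have hκ : Fix E (w'⁻¹ * w) := by
      intro x hx
      rw [AlgEquiv.mul_apply, ← hw'E x hx, inv_apply_self]
    obtain ⟨ρ, hρ, h6⟩ := hrig _ hκ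
    refine ⟨ζ, hζ, w' * ρ * w'⁻¹, fix_conj hnorm hw'K hρ, ?_⟩
    have h7 : w β = w' (ρ β) := by
      rw [← h6]
      exact (apply_inv_self w' (w β)).symm
    have h8 : w'⁻¹ (w' β) = β := inv_apply_self w' β
    rw [h7]
    have h9 : (w' * ρ * w'⁻¹) (w' β) = w' (ρ β) := by
      rw [AlgEquiv.mul_apply, h8, AlgEquiv.mul_apply]
    rw [← h9, hw'β, map_mul, fix_conj hnorm hw'K hρ ζ (htorF ζ hζ)]
  -- the multiplier is unique
  have huniq : ∀ (ζ₁ ζ₂ : Qb) (ρ₁ ρ₂ : Aut), Tor ζ₁ → Tor ζ₂ → Fix Finf ρ₁ → Fix Finf ρ₂ →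
      ζ₁ * ρ₁ β = ζ₂ * ρ₂ β → ζ₁ = ζ₂ := by
    intro ζ₁ ζ₂ ρ₁ ρ₂ hζ₁ hζ₂ hρ₁ hρ₂ h
    have h1 : ρ₁ β = (ζ₂ / ζ₁) * ρ₂ β := by
      have := hζ₁.ne_zero
      field_simp
      rw [mul_comm]
      exact h
    have hζ : Tor (ζ₂ / ζ₁) := hζ₂.div hζ₁
    have h2 : (ρ₂⁻¹ * ρ₁) β = (ζ₂ / ζ₁) * β := by
      rw [AlgEquiv.mul_apply, h1, map_mul, inv_apply_self, fix_inv hρ₂ _ (htorF _ hζ)]
    have h3 : (ρ₂⁻¹ * ρ₁) β = β := by
      apply htr _ (fix_mul (fix_inv hρ₂) hρ₁)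
      rw [h2, mul_div_assoc, div_self hβ, mul_one]
      exact hζ
    rw [h3] at h2
    have h4 : ζ₂ / ζ₁ = 1 := by
      have h5 : ζ₂ / ζ₁ * β = 1 * β := by rw [← h2, one_mul]
      exact mul_right_cancel₀ hβ h5
    exact ((div_eq_one_iff_eq hζ₁.ne_zero).mp h4).symm
  choose! ζf hζf hζρ using hact
  choose! ρf hρf hwβ using hζρ
  -- multiplicativity
  have hmul : ∀ τ τ' : Aut, Fix L τ → Fix L τ' → ζf (τ * τ') = ζf τ * ζf τ' := by
    intro τ τ' hτ hτ'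
    have h1 := hwβ (τ * τ') (fix_mul hτ hτ')
    have h2 : (τ * τ') β = (ζf τ * ζf τ') * ((τ * ρf τ' * τ⁻¹) * ρf τ) β := by
      have hc1 : Fix Finf (τ * ρf τ' * τ⁻¹) :=
        fix_conj hnorm (fix_mono hKL hτ) (hρf τ' hτ')
      have e0 : (τ * τ') β = τ (τ' β) := rfl
      rw [e0, hwβ τ' hτ', map_mul, hτ _ (tor_mem_levInf K Γ (hζf τ' hτ'))]
      have h3 : τ (ρf τ' β) = (τ * ρf τ' * τ⁻¹) (τ β) := by
        rw [AlgEquiv.mul_apply, inv_apply_self, AlgEquiv.mul_apply]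
      rw [h3, hwβ τ hτ, map_mul, hc1 _ (htorF _ (hζf τ hτ))]
      show ζf τ' * (ζf τ * (τ * ρf τ' * τ⁻¹) (ρf τ β)) =
        ζf τ * ζf τ' * (τ * ρf τ' * τ⁻¹) (ρf τ β)
      ring
    rw [h1] at h2
    exact huniq _ _ _ _ (hζf _ (fix_mul hτ hτ')) ((hζf τ hτ).mul (hζf τ' hτ'))
      (hρf _ (fix_mul hτ hτ')) (fix_mul (fix_conj hnorm (fix_mono hKL hτ) (hρf τ' hτ')) (hρf τ hτ))
      h2
  have htriv : ∀ τ : Aut, Fix L τ → Fix E τ → ζf τ = 1 := by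
    intro τ hτ hτE
    obtain ⟨ρ, hρ, h⟩ := hrig τ hτE
    have h1 := hwβ τ hτ
    rw [h] at h1
    have h2 : (1 : Qb) * ρ β = ζf τ * ρf τ β := by rw [one_mul]; exact h1
    exact (huniq 1 (ζf τ) ρ (ρf τ) tor_one (hζf τ hτ) hρ (hρf τ hτ) h2).symm
  have hone : ζf 1 = 1 := htriv 1 (fix_one L) (fix_one E)
  have hpowmul : ∀ (τ : Aut), Fix L τ → ∀ j : ℕ, ζf (τ ^ j) = ζf τ ^ j := by
    intro τ hτ j
    induction j with
    | zero => rw [pow_zero, pow_zero, hone]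
    | succ j ih => rw [pow_succ, pow_succ, hmul _ _ (fix_pow hτ j) hτ, ih]
  have hyp : ∀ y : Qb, (∃ g ∈ Γ, y ^ (p ^ n * M) = (g : Qb)) → y ^ p ∈ L := by
    rintro y ⟨x, hx, h⟩
    apply rad_mem_levInf
    refine ⟨x, hx, ?_⟩
    rw [← pow_mul, ← h]
    congr 1
    rw [← mul_assoc, ← pow_succ']
    congr 2
    omega
  have hord : ∀ τ : Aut, Fix L τ → ζf τ ^ p = 1 := by
    intro τ hτ
    rw [← hpowmul τ hτ p]
    apply htriv _ (fix_pow hτ p)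
    apply fix_lev_of hNpos (fix_pow hτ p)
    intro y hy
    have hy0 : y ≠ 0 := rad_ne_zero hRpos hy
    have hωp : (τ y / y) ^ p = 1 := by
      rw [div_pow, ← map_pow, hτ _ (hyp y hy), div_self (pow_ne_zero _ hy0)]
    set ω := τ y / y with hω
    have hωtor : Tor ω := ⟨p, hp.pos, hωp⟩
    have hτy : τ y = ω * y := by rw [hω]; field_simp
    have hpow : ∀ j : ℕ, (τ ^ j) y = ω ^ j * y := by
      intro j
      induction j with
      | zero => simp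
      | succ j ih =>
        rw [pow_succ', AlgEquiv.mul_apply, ih, map_mul, map_pow,
          hτ ω (tor_mem_levInf K Γ hωtor), hτy]
        ring
    rw [hpow, hωp, one_mul]
  -- Kummer duality
  obtain ⟨z, hz, hzy⟩ := exists_roots Γ s g hg (p ^ n * M) hRpos
  have hzrad : ∀ j, ∃ x ∈ Γ, (z j : Qb) ^ (p ^ n * M) = (x : Qb) := fun j =>
    ⟨g j, hgΓ j, by rw [← Units.val_pow_eq_pow_val, hz]⟩
  have hfin : ∃ T : Finset Qbˣ, ∀ y ∈ radS Γ (p ^ n * M), ∃ t ∈ T, ((y / t : Qbˣ) : Qb) ∈ L := by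
    refine ⟨Finset.univ.image fun r : Fin s → Fin p => ∏ j, z j ^ (r j : ℕ), ?_⟩
    intro y hy
    rw [radS_iff] at hy
    obtain ⟨e, ζ, hζ, hy'⟩ := hzy y hy
    have hppos : (0 : ℤ) < p := by exact_mod_cast hp.pos
    have hr : ∀ j, ((e j % p).toNat : ℤ) = e j % p := fun j =>
      Int.toNat_of_nonneg (Int.emod_nonneg _ hppos.ne')
    have hrlt : ∀ j, (e j % p).toNat < p := by
      intro j
      have := Int.emod_lt_of_pos (e j) hppos
      have h2 := hr j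
      omega
    refine ⟨∏ j, z j ^ (e j % p).toNat, Finset.mem_image.mpr
      ⟨fun j => ⟨(e j % p).toNat, hrlt j⟩, Finset.mem_univ _, rfl⟩, ?_⟩
    have h1 : ((y / ∏ j, z j ^ (e j % p).toNat : Qbˣ) : Qb) =
        ζ * ∏ j, ((z j : Qb) ^ p) ^ (e j / p) := by
      rw [Units.val_div_eq_div_val, hy', mul_div_assoc, Units.coe_prod, Units.coe_prod,
        ← Finset.prod_div_distrib]
      congr 1
      apply Finset.prod_congr rfl
      intro j _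
      rw [Units.val_zpow_eq_zpow_val, Units.val_pow_eq_pow_val, ← zpow_natCast (z j : Qb) p,
        ← zpow_natCast (z j : Qb) (e j % p).toNat, ← zpow_mul, hr j, ← zpow_sub₀ (Units.ne_zero _)]
      congr 1
      have := Int.emod_add_mul_ediv (e j) p
      linarith
    rw [h1]
    refine mul_mem (tor_mem_levInf K Γ ⟨_, hRpos, hζ⟩) (prod_mem fun j _ => ?_)
    exact zpow_mem (hyp _ (hzrad j)) _
  obtain ⟨γ, hγS, hγ⟩ := hKDB L p (radS Γ (p ^ n * M)) hp.pos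
    (fun x hx => tor_mem_levInf K Γ ⟨p, hp.pos, hx⟩)
    (fun y hy => hyp _ ((radS_iff y).mp hy)) hfin ζf hmul hord
    (fun τ hτ h => htriv τ hτ (fix_lev_of hNpos hτ fun y hy => by
      have hy0 : y ≠ 0 := rad_ne_zero hRpos hy
      exact h (Units.mk0 y hy0) ((radS_iff _).mpr hy)))
  have hγrad := (radS_iff γ).mp hγS
  have hγF : (γ : Qb) ∈ Finf := hFinf (rad_mem_levInf K Γ hγrad)
  refine ⟨γ, hγrad, ?_⟩
  intro w hw
  refine ⟨ρf w, hρf w hw, ?_⟩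
  have hγ0 : (γ : Qb) ≠ 0 := Units.ne_zero γ
  have hζ0 := (hζf w hw).ne_zero
  rw [map_div₀, map_div₀, hγ w hw, hρf w hw _ hγF, hwβ w hw]
  field_simp

end Pool.Agent.W237.RK
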