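import Mathlib
import Pool.Agent.W237.RK.Fin2

set_option autoImplicit false
set_option linter.unusedVariables false

/-!
# The main theorem from the cyclotomic step, the Kummer step and the Bogomolov property
-/

namespace Pool.Agent.W237.RK

open Polynomial IntermediateField
open Pool.Agent.H58P (Qb ht)
open Pool.Agent.H58B (ht_pow)
open Pool.Agent.H58R (ht_nonneg ht_mul_le ht_inv ht_zpow ht_prod_le)

lemma rigid_of_coeff (Finf F F' : GF) (β : Qb)
    (h1 : ∀ j : ℕ, ((minpoly F β).coeff j : Qb) ∈ F') (h : Rigid Finf F β) :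
    Rigid Finf F' β := by
  intro κ hκ
  have h3 : aeval (κ β) (minpoly F β) = 0 := by
    have h4 : κ (aeval β (minpoly F β)) = aeval (κ β) (minpoly F β) := by
      rw [aeval_eq_sum_range, aeval_eq_sum_range, map_sum]
      apply Finset.sum_congr rfl
      intro j _
      rw [Algebra.smul_def, Algebra.smul_def, map_mul, map_pow]
      congr 1
      exact hκ _ (h1 j)
    rw [← h4, minpoly.aeval, map_zero]
  obtain ⟨ρ', hρ', h5⟩ := exists_fix_of_root F β (κ β) h3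
  obtain ⟨ρ, hρ, h6⟩ := h ρ' hρ'
  exact ⟨ρ, hρ, by rw [← h5, h6]⟩

lemma Smooth.mul {P : Finset ℕ} {m n : ℕ} (hm : Smooth P m) (hn : Smooth P n) :
    Smooth P (m * n) := by
  refine ⟨Nat.mul_pos hm.1 hn.1, fun q hq h => ?_⟩
  rcases (Nat.Prime.dvd_mul hq).mp h with h | h
  · exact hm.2 q hq h
  · exact hn.2 q hq h

lemma smooth_one (P : Finset ℕ) : Smooth P 1 :=
  ⟨one_pos, fun q hq h => absurd (Nat.dvd_one.mp h) hq.one_lt.ne'⟩

lemma Smooth.of_dvd {P : Finset ℕ} {m n : ℕ} (hn : Smooth P n) (h : m ∣ n) : Smooth P m :=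
  ⟨Nat.pos_of_dvd_of_pos h hn.1, fun q hq hqm => hn.2 q hq (hqm.trans h)⟩

lemma exists_levInf_of_mem (K : GF) (Γ : Subgroup Qbˣ) (P : Finset ℕ) (x : Qb)
    (hx : x ∈ fullField K Γ P) : ∃ R : ℕ, Smooth P R ∧ x ∈ levInf K Γ R := by
  have hmono : ∀ R R' : ℕ, Smooth P R → Smooth P R' → levInf K Γ R ≤ levInf K Γ (R * R') :=
    fun R R' hR hR' => levInf_mono K Γ (Nat.mul_pos hR.1 hR'.1) (Nat.dvd_mul_right R R')
  have hmono' : ∀ R R' : ℕ, Smooth P R → Smooth P R' → levInf K Γ R' ≤ levInf K Γ (R * R') :=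
    fun R R' hR hR' => levInf_mono K Γ (Nat.mul_pos hR.1 hR'.1) (Nat.dvd_mul_left R' R)
  let U : GF :=
    { carrier := {x | ∃ R : ℕ, Smooth P R ∧ x ∈ levInf K Γ R}
      mul_mem' := by
        rintro x y ⟨N, hN, hx⟩ ⟨N', hN', hy⟩
        exact ⟨N * N', hN.mul hN', mul_mem (hmono N N' hN hN' hx) (hmono' N N' hN hN' hy)⟩
      add_mem' := by
        rintro x y ⟨N, hN, hx⟩ ⟨N', hN', hy⟩
        exact ⟨N * N', hN.mul hN', add_mem (hmono N N' hN hN' hx) (hmono' N N' hN hN' hy)⟩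
      algebraMap_mem' := fun r => ⟨1, smooth_one P, IntermediateField.algebraMap_mem _ r⟩
      inv_mem' := by
        rintro x ⟨N, hN, hx⟩
        exact ⟨N, hN, inv_mem hx⟩ }
  have hU : fullField K Γ P ≤ U := by
    apply sup_le
    · intro x hx
      exact ⟨1, smooth_one P, le_levInf K Γ 1 hx⟩
    · rw [adjoin_le_iff]
      rintro x (hx | ⟨n, hn, hx⟩)
      · exact ⟨1, smooth_one P, tor_mem_levInf K Γ hx⟩
      · exact ⟨n, hn, rad_mem_levInf K Γ hx⟩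
  exact hU hx

lemma exists_levInf_of_finite (K : GF) (Γ : Subgroup Qbˣ) (P : Finset ℕ) (s : Set Qb)
    (hs : s.Finite) (h : ∀ x ∈ s, x ∈ fullField K Γ P) :
    ∃ R : ℕ, Smooth P R ∧ ∀ x ∈ s, x ∈ levInf K Γ R := by
  induction s, hs using Set.Finite.induction_on with
  | empty => exact ⟨1, smooth_one P, fun x hx => absurd hx (Set.notMem_empty x)⟩
  | @insert a s _ _ ih =>
    obtain ⟨N, hN, h1⟩ := ih fun x hx => h x (Set.mem_insert_of_mem _ hx)
    obtain ⟨N', hN', h2⟩ := exists_levInf_of_mem K Γ P a (h a (Set.mem_insert _ _))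
    refine ⟨N * N', hN.mul hN', ?_⟩
    intro x hx
    rcases Set.mem_insert_iff.mp hx with rfl | hx
    · exact levInf_mono K Γ (Nat.mul_pos hN.1 hN'.1) (Nat.dvd_mul_left N' N) h2
    · exact levInf_mono K Γ (Nat.mul_pos hN.1 hN'.1) (Nat.dvd_mul_right N N') (h1 x hx)

lemma exists_rigid_levInf (K : GF) (Γ : Subgroup Qbˣ) (P : Finset ℕ) (β : Qb) :
    ∃ R : ℕ, Smooth P R ∧ Rigid (fullField K Γ P) (levInf K Γ R) β := by
  set F := fullField K Γ P with hF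
  obtain ⟨R, hR, h1⟩ := exists_levInf_of_finite K Γ P
    (Set.range fun j : Fin ((minpoly F β).natDegree + 1) => ((minpoly F β).coeff j : Qb))
    (Set.finite_range _) (by rintro _ ⟨j, rfl⟩; exact ((minpoly F β).coeff j).2)
  refine ⟨R, hR, rigid_of_coeff F F _ β ?_ (fun κ hκ => ⟨κ, hκ, rfl⟩)⟩
  intro j
  by_cases hj : j < (minpoly F β).natDegree + 1
  · exact h1 _ ⟨⟨j, hj⟩, rfl⟩
  · rw [coeff_eq_zero_of_natDegree_lt (by omega)]
    simp

/-- properties of `β` used in the descent -/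
structure Good (K Finf : GF) (D : ℕ) (c : ℝ) (β : Qb) : Prop where
  ne : β ≠ 0
  orb : (orb Finf β).ncard ≤ D
  tor : TorRigid Finf β
  ht : ∀ σ : Aut, Fix K σ → ht (σ β / β) ≤ c

lemma Good.div {K Finf : GF} {Γ : Subgroup Qbˣ} (hΓ : ∀ g ∈ Γ, (g : Qb) ∈ K) {D : ℕ} {c : ℝ}
    {β γ : Qb} (h : Good K Finf D c β) (hγ0 : γ ≠ 0) (hγ : γ ∈ Finf) (hd : DivG Γ γ) :
    Good K Finf D c (β / γ) where
  ne := div_ne_zero h.ne hγ0
  orb := by rw [orb_div_ncard hγ0 hγ]; exact h.orb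
  tor := torRigid_div h.tor hγ0 hγ
  ht := fun σ hσ => by rw [ht_div hγ0 (tor_ratio hΓ hγ0 hd hσ)]; exact h.ht σ hσ

lemma Good.mono {K Finf : GF} {D : ℕ} {c c' : ℝ} (hc : c ≤ c') {β : Qb}
    (h : Good K Finf D c β) : Good K Finf D c' β where
  ne := h.ne
  orb := h.orb
  tor := h.tor
  ht := fun σ hσ => (h.ht σ hσ).trans hc

lemma divG_tor (Γ : Subgroup Qbˣ) {γ : Qb} (h : Tor γ) : DivG Γ γ := by
  obtain ⟨n, hn, h⟩ := h
  exact ⟨n, hn, 1, one_mem Γ, by simpa using h⟩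

lemma DivG.mul {Γ : Subgroup Qbˣ} {x y : Qb} (hx : DivG Γ x) (hy : DivG Γ y) :
    DivG Γ (x * y) := by
  obtain ⟨n, hn, g, hg, hx⟩ := hx
  obtain ⟨m, hm, h, hh, hy⟩ := hy
  refine ⟨n * m, Nat.mul_pos hn hm, g ^ m * h ^ n, mul_mem (pow_mem hg m) (pow_mem hh n), ?_⟩
  rw [mul_pow, pow_mul, hx, mul_comm n m, pow_mul, hy, Units.val_mul, Units.val_pow_eq_pow_val,
    Units.val_pow_eq_pow_val]

/-- one step of the descent -/
theorem descend (hCS : S_CS) (hKS : S_KS) (p : ℕ) (hp : p.Prime) (K : GF) (Γ : Subgroup Qbˣ)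
    (hKfd : FiniteDimensional ℚ K) (hΓfg : Γ.FG) (hΓ : ∀ g ∈ Γ, (g : Qb) ∈ K) (D : ℕ) :
    ∃ (n₀ : ℕ) (c : ℝ), 0 < c ∧ 0 < n₀ ∧ ∀ (Finf : GF) (n M : ℕ) (β : Qb), n₀ ≤ n → ¬ p ∣ M →
      levInf K Γ (p ^ n * M) ≤ Finf → NormalOver K Finf → Good K Finf D c β →
      Rigid Finf (levInf K Γ (p ^ n * M)) β →
      ∃ γ : Qb, γ ≠ 0 ∧ DivG Γ γ ∧ γ ∈ Finf ∧
        Rigid Finf (levInf K Γ (p ^ (n - 1) * M)) (β / γ) := by
  have : Fact p.Prime := ⟨hp⟩
  have hex : Nonempty (Qb →+* PadicAlgCl p) := by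
    have : CharZero (PadicAlgCl p) := inferInstance
    let _ : Algebra ℚ (PadicAlgCl p) := DivisionRing.toRatAlgebra
    exact ⟨((IsAlgClosed.lift : Qb →ₐ[ℚ] PadicAlgCl p) : Qb →+* PadicAlgCl p)⟩
  obtain ⟨φ⟩ := hex
  obtain ⟨B, c₁, hc₁, hB⟩ := hCS p φ K Γ hKfd hΓfg hΓ D
  obtain ⟨n₀, c₂, hc₂, hn₀⟩ := hKS p φ K Γ hKfd hΓfg hΓ D B
  refine ⟨n₀ + 1, min c₁ c₂, lt_min hc₁ hc₂, Nat.succ_pos _, ?_⟩
  intro Finf n M β hn hM hF hnorm hgood hrig
  have hMpos : 0 < M := Nat.pos_of_ne_zero (by rintro rfl; exact hM (dvd_zero p))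
  have hRpos : 0 < p ^ n * M := Nat.mul_pos (pow_pos hp.pos n) hMpos
  have hkinf : kinf K ≤ Finf := (kinf_le_levInf K Γ _).trans hF
  obtain ⟨N, hN, hrigN⟩ := exists_rigid_lev Finf K Γ (p ^ n * M) β hrig
  obtain ⟨v, M', hM', hNv⟩ := Nat.exists_eq_pow_mul_and_not_dvd hN.ne' p hp.ne_one
  have hM'pos : 0 < M' := Nat.pos_of_ne_zero (by rintro rfl; exact hM' (dvd_zero p))
  -- rigid at a high level
  have hhigh : Rigid Finf (lev K Γ (p ^ (n + B + v) * M') (p ^ n * M)) β := by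
    refine rigid_mono (lev_mono K Γ ?_ hRpos dvd_rfl) hrigN
    rw [hNv]
    exact Nat.mul_dvd_mul_right (pow_dvd_pow p (by omega)) M'
  have hlevF : ∀ i, lev K Γ (p ^ i * M') (p ^ n * M) ≤ Finf := fun i =>
    (lev_le_levInf K Γ (Nat.mul_pos (pow_pos hp.pos i) hM'pos)).trans hF
  -- cyclotomic descent
  have hdown : ∀ j, j ≤ v → ∃ γ : Qb, Tor γ ∧
      Rigid Finf (lev K Γ (p ^ (n + B + (v - j)) * M') (p ^ n * M)) (β / γ) := by
    intro j
    induction j with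
    | zero =>
      intro _
      exact ⟨1, tor_one, by rw [div_one, Nat.sub_zero]; exact hhigh⟩
    | succ j ih =>
      intro hj
      obtain ⟨γ, hγ, hr⟩ := ih (by omega)
      have hg : Good K Finf D (min c₁ c₂) (β / γ) :=
        hgood.div hΓ hγ.ne_zero (hkinf (tor_mem_kinf K hγ)) (divG_tor Γ hγ)
      obtain ⟨γ', hγ', hr'⟩ := hB Finf (n + B + (v - j)) n M M' (β / γ) (by omega) hM hM' hkinf
        (hlevF _) hnorm hg.ne hg.orb hg.tor hr (fun σ hσ => (hg.ht σ hσ).trans (min_le_left _ _))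
      refine ⟨γ * γ', hγ.mul hγ', ?_⟩
      rw [← div_div]
      have e : n + B + (v - j) - 1 = n + B + (v - (j + 1)) := by omega
      rw [e] at hr'
      exact hr'
  obtain ⟨γ, hγ, hr⟩ := hdown v le_rfl
  rw [Nat.sub_self, Nat.add_zero] at hr
  have hγF : γ ∈ Finf := hkinf (tor_mem_kinf K hγ)
  have hg : Good K Finf D (min c₁ c₂) (β / γ) := hgood.div hΓ hγ.ne_zero hγF (divG_tor Γ hγ)
  obtain ⟨γ', hγ', hr'⟩ := hn₀ Finf (n + B) n M M' (β / γ) (by omega) (by omega) le_rfl hM hM' hF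
    hnorm hg.ne hg.orb hg.tor hr (fun σ hσ => (hg.ht σ hσ).trans (min_le_right _ _))
  have hγ'F : γ' ∈ Finf := hF (rad_mem_levInf K Γ hγ')
  have hγ'0 : γ' ≠ 0 := by
    obtain ⟨g, -, h⟩ := hγ'
    rintro rfl
    rw [zero_pow hRpos.ne'] at h
    exact g.ne_zero h.symm
  refine ⟨γ * γ', mul_ne_zero hγ.ne_zero hγ'0, (divG_tor Γ hγ).mul ⟨_, hRpos, hγ'⟩,
    mul_mem hγF hγ'F, ?_⟩
  rw [← div_div]
  exact hr'

theorem main : S_CS → S_KS → S_BOG → S_MAIN := by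
  intro hCS hKS hBOG K Γ hKfd hΓfg hΓ P hP D
  classical
  -- constants for the primes of `P`
  have hdes : ∀ p : ℕ, ∃ (n₀ : ℕ) (c : ℝ), 0 < c ∧ 0 < n₀ ∧ (p ∈ P → ∀ (Finf : GF) (n M : ℕ)
      (β : Qb), n₀ ≤ n → ¬ p ∣ M → levInf K Γ (p ^ n * M) ≤ Finf → NormalOver K Finf →
      Good K Finf D c β → Rigid Finf (levInf K Γ (p ^ n * M)) β →
      ∃ γ : Qb, γ ≠ 0 ∧ DivG Γ γ ∧ γ ∈ Finf ∧
        Rigid Finf (levInf K Γ (p ^ (n - 1) * M)) (β / γ)) := by
    intro p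
    by_cases hpP : p ∈ P
    · obtain ⟨n₀, c, hc, hn, h⟩ := descend hCS hKS p (hP p hpP) K Γ hKfd hΓfg hΓ D
      exact ⟨n₀, c, hc, hn, fun _ => h⟩
    · exact ⟨1, 1, one_pos, one_pos, fun h => absurd h hpP⟩
  choose n₀ c hc hn₀ hstep using hdes
  obtain ⟨c₀, hc₀, hc₀P⟩ : ∃ c₀ : ℝ, 0 < c₀ ∧ ∀ p ∈ P, c₀ ≤ c p := by
    by_cases hPe : P.Nonempty
    · refine ⟨P.inf' hPe c, ?_, fun p hp => Finset.inf'_le c hp⟩
      rw [Finset.lt_inf'_iff]
      exact fun p _ => hc p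
    · rw [Finset.not_nonempty_iff_eq_empty] at hPe
      exact ⟨1, one_pos, fun p hp => by rw [hPe] at hp; exact absurd hp (Finset.notMem_empty p)⟩
  -- the bottom level
  set R₀ : ℕ := ∏ p ∈ P, p ^ n₀ p with hR₀
  have hR₀pos : 0 < R₀ := Finset.prod_pos fun p hp => pow_pos (hP p hp).pos _
  set K₁ : GF := lev K Γ R₀ R₀ with hK₁
  have hK₁fd : FiniteDimensional ℚ K₁ := finiteDimensional_lev K hKfd Γ hΓfg R₀ R₀ hR₀pos hR₀pos
  have hΓ₁ : ∀ g ∈ Γ, (g : Qb) ∈ K₁ := fun g hg => le_lev K Γ _ _ (hΓ g hg)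
  obtain ⟨cB, hcB, hBog⟩ := hBOG K₁ hK₁fd D
  obtain ⟨δ, hδ, hbox⟩ := box_step K₁ Γ hΓfg hΓ₁ D cB hcB hBog
  have hfac : (0 : ℝ) < (D.factorial : ℝ) := by exact_mod_cast Nat.factorial_pos D
  refine ⟨min (c₀ / (2 * D.factorial)) (δ / D.factorial), lt_min (by positivity) (by positivity),
    ?_⟩
  intro α hα hD hnd
  by_contra hlt
  push Not at hlt
  apply hnd
  set Finf := fullField K Γ P with hFinf
  have hkinf : kinf K ≤ Finf := kinf_le_fullField K Γ P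
  have htorF : ∀ x : Qb, Tor x → x ∈ Finf := fun x hx => hkinf (tor_mem_kinf K hx)
  have hnorm : NormalOver K Finf := normal_fullField K Γ hΓ P
  set α₁ := α ^ D.factorial with hα₁
  have hα₁0 : α₁ ≠ 0 := pow_ne_zero _ hα
  have hht₁ : ht α₁ = D.factorial * ht α := ht_pow α _
  have hlt1 : 2 * ht α₁ ≤ c₀ := by
    have h1 := hlt.le.trans (min_le_left _ _)
    rw [le_div_iff₀ (by positivity)] at h1
    rw [hht₁]
    linarith
  have hlt2 : ht α₁ < δ := by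
    have h1 := lt_of_lt_of_le hlt (min_le_right _ _)
    rw [lt_div_iff₀ hfac] at h1
    rw [hht₁]
    linarith
  have hgood : Good K Finf D c₀ α₁ :=
    { ne := hα₁0
      orb := (orb_pow_ncard α _).trans hD
      tor := torRigid_factorial htorF hα hD
      ht := fun σ hσ => by
        have h1 := ht_mul_le (σ α₁) α₁⁻¹
        rw [ht_inv α₁ hα₁0, Pool.Agent.H58B.ht_conj, ← div_eq_mul_inv] at h1
        linarith }
  -- a minimal level
  have hex : ∃ R : ℕ, Smooth P R ∧ ∃ γ : Qb, γ ≠ 0 ∧ DivG Γ γ ∧ γ ∈ Finf ∧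
      Rigid Finf (levInf K Γ R) (α₁ / γ) := by
    obtain ⟨R, hR, hr⟩ := exists_rigid_levInf K Γ P α₁
    exact ⟨R, hR, 1, one_ne_zero, divG_tor Γ tor_one, one_mem _, by rw [div_one]; exact hr⟩
  obtain ⟨hRs, γ, hγ0, hγd, hγF, hγr⟩ := Nat.find_spec hex
  set R := Nat.find hex with hRdef
  have hRdvd : R ∣ R₀ := by
    have hval : ∀ p ∈ P, R.factorization p < n₀ p := by
      intro p hpP
      by_contra hcon
      push Not at hcon
      have hp := hP p hpP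
      obtain ⟨n, M, hM, hRn⟩ := Nat.exists_eq_pow_mul_and_not_dvd hRs.1.ne' p hp.ne_one
      have hn : R.factorization p = n := by
        rw [hRn, Nat.factorization_mul (pow_ne_zero _ hp.ne_zero)
          (by rintro rfl; exact hM (dvd_zero p)), Finsupp.add_apply, hp.factorization_pow,
          Finsupp.single_eq_same, Nat.factorization_eq_zero_of_not_dvd hM, Nat.add_zero]
      rw [hn] at hcon
      have hg : Good K Finf D (c p) (α₁ / γ) :=
        (hgood.div hΓ hγ0 hγF hγd).mono (hc₀P p hpP)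
      have hle : levInf K Γ (p ^ n * M) ≤ Finf := by
        rw [← hRn]
        exact levInf_le_fullField K Γ hRs
      obtain ⟨γ', hγ'0, hγ'd, hγ'F, hγ'r⟩ := hstep p hpP Finf n M (α₁ / γ) hcon hM hle hnorm hg
        (by rw [← hRn]; exact hγr)
      have hnpos : 0 < n := lt_of_lt_of_le (hn₀ p) hcon
      have hMpos : 0 < M := Nat.pos_of_ne_zero (by rintro rfl; exact hM (dvd_zero p))
      have hlt' : p ^ (n - 1) * M < R := by
        rw [hRn]
        apply Nat.mul_lt_mul_of_pos_right _ hMpos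
        exact Nat.pow_lt_pow_right hp.one_lt (by omega)
      apply Nat.find_min hex hlt'
      refine ⟨hRs.of_dvd ?_, γ * γ', mul_ne_zero hγ0 hγ'0, hγd.mul hγ'd, mul_mem hγF hγ'F, ?_⟩
      · rw [hRn]
        exact Nat.mul_dvd_mul_right (pow_dvd_pow p (by omega)) M
      · rw [← div_div]
        exact hγ'r
    rw [← Nat.factorization_le_iff_dvd hRs.1.ne' hR₀pos.ne']
    intro q
    by_cases hq : q ∈ P
    · have h1 : q ^ n₀ q ∣ R₀ := Finset.dvd_prod_of_mem _ hq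
      have h2 : n₀ q ≤ R₀.factorization q :=
        ((hP q hq).pow_dvd_iff_le_factorization hR₀pos.ne').mp h1
      exact (hval q hq).le.trans h2
    · have h1 : R.factorization q = 0 := by
        by_cases hqp : q.Prime
        · apply Nat.factorization_eq_zero_of_not_dvd
          intro h
          exact hq (hRs.2 q hqp h)
        · exact Nat.factorization_eq_zero_of_not_prime _ hqp
      rw [h1]
      exact Nat.zero_le _
  -- the conclusion
  have hle1 : levInf K Γ R ≤ kinf K₁ := by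
    refine (levInf_mono K Γ hR₀pos hRdvd).trans (levInf_le ?_ ?_ ?_)
    · exact (le_lev K Γ R₀ R₀).trans (le_kinf K₁)
    · intro x hx
      exact tor_mem_kinf K₁ hx
    · intro y hy
      exact le_kinf K₁ (rad_mem_lev K Γ hy)
  have horb : (orb (kinf K₁) (α₁ / γ)).ncard ≤ D := by
    have h1 := orb_eq_of_rigid (levInf_le_fullField K Γ hRs) hγr
    calc (orb (kinf K₁) (α₁ / γ)).ncard ≤ (orb (levInf K Γ R) (α₁ / γ)).ncard :=
          Set.ncard_le_ncard (orb_mono hle1 _) (orb_finite _ _)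
      _ = (orb Finf (α₁ / γ)).ncard := by rw [h1]
      _ ≤ D := (hgood.div hΓ hγ0 hγF hγd).orb
  obtain ⟨n, hn, g, hg, h⟩ := hbox α₁ γ hα₁0 hγ0 hγd horb hlt2
  refine ⟨D.factorial * n, Nat.mul_pos (Nat.factorial_pos D) hn, g, hg, ?_⟩
  rw [pow_mul]
  exact h

end Pool.Agent.W237.RK
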