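import Mathlib
import Pool.Agent.W237.RK.LDefs
import Pool.Agent.W237.RK.GalGen

set_option autoImplicit false

/-!
# Local basic lemmas
-/

namespace Pool.Agent.W237.RK

open Polynomial IntermediateField

variable {p : ℕ} [Fact p.Prime]

/-- automorphisms preserve the norm -/
theorem norm_inv (σ : LAut p) (x : Om p) : ‖σ x‖ = ‖x‖ :=
  (spectralNorm_eq_of_equiv (K := ℚ_[p]) (L := PadicAlgCl p) σ x).symm

theorem inv : S_INV := fun _ _ σ x => norm_inv σ x

lemma lorb_eq (F : LF p) (x : Om p) : lorb F x = gorb F x := rfl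

lemma lorb_finite (F : LF p) (x : Om p) : (lorb F x).Finite := gorb_finite F x

lemma lorb_ncard (F : LF p) (x : Om p) : (lorb F x).ncard = (minpoly F x).natDegree :=
  gorb_ncard F x

lemma self_mem_lorb (F : LF p) (x : Om p) : x ∈ lorb F x := self_mem_gorb F x

lemma lorb_ncard_pos (F : LF p) (x : Om p) : 0 < (lorb F x).ncard := gorb_ncard_pos F x

lemma mem_of_lfix (F : LF p) (x : Om p) (h : ∀ σ : LAut p, LFix F σ → σ x = x) : x ∈ F :=
  mem_of_gfix F x h

lemma exists_lfix_of_root (F : LF p) (x y : Om p) (h : aeval y (minpoly F x) = 0) :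
    ∃ σ : LAut p, LFix F σ ∧ σ x = y := exists_gfix_of_root F x y h

lemma minpoly_map_eq_lprod (F : LF p) (x : Om p) :
    (minpoly F x).map (algebraMap F (Om p)) = ∏ y ∈ (lorb_finite F x).toFinset, (X - C y) :=
  minpoly_map_eq_prod F x

lemma aeval_minpoly_eq_lprod (F : LF p) (x z : Om p) :
    aeval z (minpoly F x) = ∏ᶠ y ∈ lorb F x, (z - y) := aeval_minpoly_eq_prod F x z

/-- norm of the value of the minimal polynomial -/
lemma norm_aeval_minpoly (F : LF p) (x z : Om p) :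
    ‖aeval z (minpoly F x)‖ = ∏ᶠ y ∈ lorb F x, ‖z - y‖ := by
  rw [aeval_minpoly_eq_lprod, finprod_mem_eq_finite_toFinset_prod _ (lorb_finite F x),
    finprod_mem_eq_finite_toFinset_prod _ (lorb_finite F x), norm_prod]

lemma norm_of_mem_lorb {F : LF p} {x y : Om p} (h : y ∈ lorb F x) : ‖y‖ = ‖x‖ := by
  obtain ⟨σ, -, rfl⟩ := h
  exact norm_inv σ x

/-- norm of `p` -/
lemma norm_p : ‖(p : Om p)‖ = (p : ℝ)⁻¹ := by
  have h := PadicAlgCl.norm_extends p (p : ℚ_[p])
  have h2 : ((p : ℚ_[p]) : PadicAlgCl p) = (p : Om p) := map_natCast (algebraMap ℚ_[p] (Om p)) p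
  rw [h2, Padic.norm_p] at h
  exact h

lemma root_mem_kur {x : Om p} {M : ℕ} (hM : ¬ p ∣ M) (h : x ^ M = 1) : x ∈ kur p :=
  IntermediateField.subset_adjoin _ _ ⟨M, hM, h⟩

end Pool.Agent.W237.RK
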