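import Pool.Agent.W327.RK.L2
import Pool.Agent.W327.RK.L5
import Pool.Agent.W327.RK.L6
import Pool.Agent.W327.RK.L9
import Pool.Agent.W327.RK.FROB
import Pool.Agent.W571.RK.L3
import Pool.Agent.W571.RK.L4
import Pool.Agent.W803.RK.L7
import Pool.Agent.W803.RK.L8
import Pool.Agent.W133.RK.L11
import Pool.Agent.W402.RK.REST
import Pool.Agent.W402.RK.ROOTS
import Pool.Agent.W402.RK.POW
import Pool.Agent.W402.RK.KD
import Pool.Agent.W402.RK.FIN
import Pool.Agent.W402.RK.BOG
import Pool.Agent.W369.RK.CONJ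
import Pool.Agent.W369.RK.GL
import Pool.Agent.W369.RK.CS
import Pool.Agent.W848.RK.HT
import Pool.Agent.W669.RK.GLF
import Pool.Agent.W340.RK.LT
import Pool.Agent.W540.RK.KI
import Pool.Agent.W237.RK.KS
import Pool.Agent.W237.RK.Main

set_option autoImplicit false

/-! # Assembly -/

namespace Pool.Agent.W237.RK

theorem kurval : S_KURVAL := Pool.Agent.W327.RK.l2
theorem res : S_RES := Pool.Agent.W571.RK.l3
theorem struct : S_STRUCT := Pool.Agent.W571.RK.l4 kurval res
theorem herb : S_HERB := Pool.Agent.W327.RK.l5 struct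
theorem tower : S_TOWER := Pool.Agent.W327.RK.l6 struct herb
theorem font : S_FONT := Pool.Agent.W803.RK.l7 struct
theorem kras : S_KRAS := Pool.Agent.W803.RK.l8 struct
theorem cyc : S_CYC := Pool.Agent.W327.RK.l9 kurval struct tower
theorem llt : S_LLT := Pool.Agent.W133.RK.l11 struct herb tower font kras cyc
theorem rest : S_REST := Pool.Agent.W402.RK.rest
theorem lt : S_LT := Pool.Agent.W340.RK.lt rest llt
theorem frob : S_FROB := Pool.Agent.W327.RK.frob res struct rest
theorem conj : S_CONJ := Pool.Agent.W369.RK.conj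
theorem hht : S_HT := Pool.Agent.W848.RK.ht conj
theorem roots : S_ROOTS := Pool.Agent.W402.RK.roots
theorem pow : S_POW := Pool.Agent.W402.RK.pow
theorem gl : S_GL := Pool.Agent.W369.RK.gl roots pow hht
theorem glf : S_GLF := Pool.Agent.W669.RK.glf pow hht
theorem cs : S_CS := Pool.Agent.W369.RK.cs gl lt
theorem bog : S_BOG := Pool.Agent.W402.RK.bog cs frob glf
theorem fin : S_FIN := Pool.Agent.W402.RK.fin bog
theorem ki : S_KI := Pool.Agent.W540.RK.ki fin Pool.Agent.W402.RK.kd.1
theorem ks' : S_KS := ks gl lt ki Pool.Agent.W402.RK.kd.2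
theorem main' : S_MAIN := main cs ks' bog

end Pool.Agent.W237.RK
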